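import Mathlib
import Pool.Agent.Helper18.Peb.Side

set_option autoImplicit false

/-!
PB-8a: bringing pebbles from the centres of the stars to a gate.
-/

namespace Pool.Agent.Helper15.PB

open Finset
open Pool.Agent.Helper18.Peb

variable {V S : Type} [DecidableEq V] [Fintype S] [DecidableEq S] {G : SimpleGraph V} {z : S → V}

theorem sum_single_gate {ι : Type} (s : Finset ι) (x : V) (f : ι → ℕ) :
    (∑ σ ∈ s, (Pi.single x (f σ) : V → ℕ)) = Pi.single x (∑ σ ∈ s, f σ) := by
  classical
  induction s using Finset.induction_on with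
  | empty => simp
  | insert a s ha ih => rw [sum_insert ha, sum_insert ha, ih, single_add_single]

theorem own_sum (sd : Side G z) (τ : S → ℕ) (i : Fin 1024) :
    Solvable G (∑ σ, Pi.single (z σ) (2 ^ 34 * τ σ))
      (Pi.single (sd.gate i) (∑ σ with sd.line σ = i, τ σ)) := by
  have h1 : Solvable G (∑ σ, Pi.single (z σ) (2 ^ 34 * τ σ))
      (∑ σ, Pi.single (sd.gate i) (if sd.line σ = i then τ σ else 0)) := by
    apply solvable_sum
    intro σ _
    by_cases h : sd.line σ = i
    · rw [if_pos h, ← h]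
      exact (sd.own σ).solv (le_of_eq (mul_comm _ _))
    · rw [if_neg h]
      exact Solvable.refl' (fun v => by simp)
  rw [sum_single_gate, ← sum_filter] at h1
  exact h1

theorem caseI1 (sd : Side G z) (hf : ∀ i, #{σ | sd.line σ = i} = 2 ^ 104 + 2 ^ 92) (τ : S → ℕ)
    (hT : 32 * (2 ^ 114 + 2 ^ 102) ≤ 32 * ∑ σ, τ σ + (2 ^ 104 + 2 ^ 92)) (i : Fin 1024) :
    Solvable G (∑ σ, Pi.single (z σ) (2 ^ 34 * τ σ)) (Pi.single (sd.gate i) (2 ^ 102)) := by
  have h1 : Solvable G (∑ σ, Pi.single (z σ) (2 ^ 34 * τ σ))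
      (∑ σ, Pi.single (sd.gate i) (if sd.line σ = i ∧ τ σ = 1 then 1 else τ σ / 2)) := by
    apply solvable_sum
    intro σ _
    by_cases h : sd.line σ = i ∧ τ σ = 1
    · rw [if_pos h, ← h.1, h.2]
      exact (sd.own σ).solv (le_of_eq (mul_comm _ _))
    · rw [if_neg h]
      apply (sd.any σ i).solv
      have := Nat.div_mul_le_self (τ σ) 2
      calc τ σ / 2 * 2 ^ 35 = 2 ^ 34 * (τ σ / 2 * 2) := by ring
        _ ≤ 2 ^ 34 * τ σ := Nat.mul_le_mul_left _ this
  rw [sum_single_gate] at h1
  refine h1.mono (le_refl _) (single_le_single ?_)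
  -- number of stars
  have hS : (Finset.univ : Finset S).card = 1024 * (2 ^ 104 + 2 ^ 92) := by
    rw [Finset.card_eq_sum_card_fiberwise (f := sd.line) (t := Finset.univ)
      (fun x _ => Finset.mem_coe.mpr (mem_univ _))]
    rw [sum_congr rfl (fun i _ => hf i), sum_const, card_univ, Fintype.card_fin, smul_eq_mul]
  have hne : #{σ | ¬ sd.line σ = i} = 1023 * (2 ^ 104 + 2 ^ 92) := by
    have h2 := Finset.card_filter_add_card_filter_not (s := (Finset.univ : Finset S))
      (fun σ => sd.line σ = i)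
    rw [hf i, hS] at h2
    omega
  have hpt : ∀ σ ∈ (Finset.univ : Finset S),
      τ σ ≤ 3 * (if sd.line σ = i ∧ τ σ = 1 then 1 else τ σ / 2)
        + (if ¬ sd.line σ = i then 1 else 0) := by
    intro σ _
    by_cases h : sd.line σ = i
    · by_cases h' : τ σ = 1
      · rw [if_pos ⟨h, h'⟩]; omega
      · rw [if_neg (fun hh => h' hh.2)]; omega
    · rw [if_neg (fun hh => h hh.1), if_pos h]; omega
  have hsum := sum_le_sum hpt
  rw [sum_add_distrib, ← mul_sum, sum_boole, hne] at hsum
  generalize (∑ σ, if sd.line σ = i ∧ τ σ = 1 then 1 else τ σ / 2) = g at hsum ⊢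
  generalize (∑ σ, τ σ) = T at hsum hT
  simp only [Nat.cast_id] at hsum
  omega

end Pool.Agent.Helper15.PB
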